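import Mathlib
import Pool.Agent.H771R2.Rec.Shift

set_option autoImplicit false

namespace Pool.Agent.Results.MP_290264_an.FreeSubgroups

open Pool.Agent.H771R2.Rec

universe u

/-- General criterion. -/
theorem criterion {G : Type u} [Group G] [Countable G] (S : Set G)
    (hF : ∃ F : Finset G, ∀ g, ∃ f ∈ F, f * g ∈ S)
    (hK : ∀ n : ℕ, ∃ K : Finset G, n ≤ K.card ∧ ∀ k ∈ K, ∀ k' ∈ K, k ≠ k' →
      Disjoint ((fun g => k * g) '' S) ((fun g => k' * g) '' S)) :
    MeasRec {r : G | r ≠ 1 ∧ Disjoint S ((fun g => r * g) '' S)} ∧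
    ¬ TopRec {r : G | r ≠ 1 ∧ Disjoint S ((fun g => r * g) '' S)} := by
  refine ⟨measRec_of_finset _ fun n => ?_, ?_⟩
  · obtain ⟨K, h1, h2⟩ := hK n
    refine ⟨K, h1, fun k hk k' hk' hne => ⟨?_, ?_⟩⟩
    · intro e; exact hne (inv_mul_eq_one.mp e)
    · rw [Set.disjoint_left]
      rintro s hs ⟨s', hs', e⟩
      refine Set.disjoint_left.mp (h2 k hk k' hk' hne) ⟨s, hs, rfl⟩ ⟨s', hs', ?_⟩
      simp only at e ⊢
      rw [← e]; group
  · obtain ⟨F, hF⟩ := hF
    refine not_topRec S F hF _ ?_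
    rintro r ⟨-, hr⟩ - g hg hrg
    exact Set.disjoint_left.mp hr hrg ⟨g, hg, rfl⟩

/-- In the free group: powers of `b` times a word starting with `a` do not start with `a`, `a⁻¹`. -/
theorem startsWith_pow (w : FreeGroup (Fin 2)) (hw : w ∈ FreeGroup.startsWith ((0 : Fin 2), true))
    (n : ℤ) (hn : n ≠ 0) :
    (FreeGroup.of (1 : Fin 2)) ^ n * w ∉ FreeGroup.startsWith ((0 : Fin 2), true) := by
  have hd : ∀ c c' : Fin 2 × Bool, c ≠ c' → ∀ x, x ∈ FreeGroup.startsWith c →
      x ∉ FreeGroup.startsWith c' := fun c c' h x hx =>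
    Set.disjoint_left.mp (FreeGroup.startsWith.disjoint_iff_ne.mpr h) hx
  have hpos : ∀ m : ℕ, (FreeGroup.of (1 : Fin 2)) ^ (m + 1) * w ∈
      FreeGroup.startsWith ((1 : Fin 2), true) := by
    intro m
    induction m with
    | zero =>
      rw [zero_add, pow_one]
      exact FreeGroup.startsWith_mk_mul w (hd _ _ (by decide) w hw)
    | succ m ih =>
      rw [pow_succ', mul_assoc]
      exact FreeGroup.startsWith_mk_mul _ (hd _ _ (by decide) _ ih)
  have hneg : ∀ m : ℕ, ((FreeGroup.of (1 : Fin 2))⁻¹) ^ (m + 1) * w ∈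
      FreeGroup.startsWith ((1 : Fin 2), false) := by
    have e : (FreeGroup.of (1 : Fin 2))⁻¹ = FreeGroup.mk [((1 : Fin 2), false)] := by
      simp [FreeGroup.of, FreeGroup.invRev]
    intro m
    induction m with
    | zero =>
      rw [zero_add, pow_one, e]
      exact FreeGroup.startsWith_mk_mul w (hd _ _ (by decide) w hw)
    | succ m ih =>
      rw [pow_succ', mul_assoc]
      nth_rewrite 1 [e]
      exact FreeGroup.startsWith_mk_mul _ (hd _ _ (by decide) _ ih)
  rcases lt_or_gt_of_ne hn with h | h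
  · obtain ⟨m, hm⟩ : ∃ m : ℕ, n = -((m : ℤ) + 1) := ⟨(-n - 1).toNat, by omega⟩
    have e : (FreeGroup.of (1 : Fin 2)) ^ n = ((FreeGroup.of (1 : Fin 2))⁻¹) ^ (m + 1) := by
      rw [hm, zpow_neg, inv_pow]
      norm_cast
    rw [e]
    exact hd _ _ (by decide) _ (hneg m)
  · obtain ⟨m, hm⟩ : ∃ m : ℕ, n = (m : ℤ) + 1 := ⟨(n - 1).toNat, by omega⟩
    have e : (FreeGroup.of (1 : Fin 2)) ^ n = (FreeGroup.of (1 : Fin 2)) ^ (m + 1) := by
      rw [hm]; norm_cast
    rw [e]
    exact hd _ _ (by decide) _ (hpos m)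

/-- If a countable group `G` contains a free group of rank two, then for some `b ∈ G` the set of the
powers `b ^ n`, `n ≠ 0`, is a set of measurable recurrence but not a set of topological recurrence. -/
theorem result (G : Type u) [Group G] [Countable G]
    (h : ∃ φ : FreeGroup (Fin 2) →* G, Function.Injective φ) :
    ∃ b : G, MeasRec {r : G | ∃ n : ℤ, n ≠ 0 ∧ r = b ^ n} ∧
      ¬ TopRec {r : G | ∃ n : ℤ, n ≠ 0 ∧ r = b ^ n} := by
  classical
  obtain ⟨φ, hφ⟩ := h
  obtain ⟨w, hw⟩ := exists_equivariant φ hφ (Y := FreeGroup (Fin 2)) 1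
  simp only [smul_eq_mul] at hw
  have hd : ∀ c c' : Fin 2 × Bool, c ≠ c' → ∀ x : FreeGroup (Fin 2), x ∈ FreeGroup.startsWith c →
      x ∉ FreeGroup.startsWith c' := fun c c' h x hx =>
    Set.disjoint_left.mp (FreeGroup.startsWith.disjoint_iff_ne.mpr h) hx
  let a : FreeGroup (Fin 2) := FreeGroup.of 0
  let b : FreeGroup (Fin 2) := FreeGroup.of 1
  have hbn : ∀ n : ℤ, n ≠ 0 → b ^ n ≠ 1 := by
    intro n hn e
    have h1 : a ∈ FreeGroup.startsWith ((0 : Fin 2), true) := by
      simp [a, FreeGroup.startsWith]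
    have := startsWith_pow a h1 n hn
    rw [show FreeGroup.of (1 : Fin 2) ^ n = 1 from e, one_mul] at this
    exact this h1
  refine ⟨φ b, ?_, ?_⟩
  · refine measRec_of_finset _ fun n => ?_
    have hinj : Function.Injective (fun i : ℕ => (φ b) ^ i) := by
      intro i j h
      by_contra hne
      have h1 : φ (b ^ ((i : ℤ) - j)) = φ 1 := by
        rw [map_one, map_zpow, zpow_sub]
        simp only [zpow_natCast]
        simp only at h
        rw [h, mul_inv_cancel]
      exact hbn ((i : ℤ) - j) (by omega) (hφ h1)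
    refine ⟨(Finset.range n).map ⟨_, hinj⟩, by simp, ?_⟩
    intro k hk k' hk' hne
    simp only [Finset.mem_map, Finset.mem_range, Function.Embedding.coeFn_mk] at hk hk'
    obtain ⟨i, -, rfl⟩ := hk
    obtain ⟨j, -, rfl⟩ := hk'
    refine ⟨(j : ℤ) - i, ?_, ?_⟩
    · intro e
      apply hne
      have : i = j := by omega
      rw [this]
    · rw [sub_eq_neg_add, zpow_add, zpow_neg]
      simp only [zpow_natCast]
  · refine not_topRec (w ⁻¹' FreeGroup.startsWith ((0 : Fin 2), true)) {φ a, φ (a * b)} ?_ _ ?_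
    · intro g
      by_cases h : w g ∈ FreeGroup.startsWith ((0 : Fin 2), false)
      · refine ⟨φ (a * b), by simp, ?_⟩
        change w (φ (a * b) * g) ∈ FreeGroup.startsWith ((0 : Fin 2), true)
        rw [hw, mul_assoc]
        apply FreeGroup.startsWith_mk_mul
        have h1 : b * w g ∈ FreeGroup.startsWith ((1 : Fin 2), true) :=
          FreeGroup.startsWith_mk_mul _ (hd _ _ (by decide) _ h)
        exact hd _ _ (by decide) _ h1
      · refine ⟨φ a, by simp, ?_⟩
        change w (φ a * g) ∈ FreeGroup.startsWith ((0 : Fin 2), true)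
        rw [hw]
        exact FreeGroup.startsWith_mk_mul _ h
    · rintro r ⟨n, hn, rfl⟩ - g hg h
      have h1 : w (φ (b ^ n) * g) ∈ FreeGroup.startsWith ((0 : Fin 2), true) := by
        rw [map_zpow]; exact h
      rw [hw] at h1
      exact startsWith_pow (w g) hg n hn h1

end Pool.Agent.Results.MP_290264_an.FreeSubgroups
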