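import Mathlib

/-!
# A non-amenable discrete group in which measurable recurrence implies topological recurrence

The group is the symmetric group of the set of real numbers. It is not amenable, and each of its
actions on a compact metric space is trivial.
-/

set_option autoImplicit false

namespace Pool.Agent.Results.MP_290264_an.NonAmenable

open MeasureTheory Set Function

universe u v w

/-! ### Definitions -/

/-- The space of bounded real functions on `G`. -/
def bddFun (G : Type u) : Submodule ℝ (G → ℝ) where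
  carrier := {f | ∃ C : ℝ, ∀ g, |f g| ≤ C}
  add_mem' := by
    rintro a b ⟨C, hC⟩ ⟨D, hD⟩
    exact ⟨C + D, fun g => (abs_add_le _ _).trans (add_le_add (hC g) (hD g))⟩
  zero_mem' := ⟨0, fun g => by simp⟩
  smul_mem' := by
    rintro c a ⟨C, hC⟩
    refine ⟨|c| * C, fun g => ?_⟩
    rw [Pi.smul_apply, smul_eq_mul, abs_mul]
    exact mul_le_mul_of_nonneg_left (hC g) (abs_nonneg c)

/-- `m` is a left-invariant mean on the bounded functions on `G`. -/
def IsLeftInvariantMean (G : Type u) [Group G] (m : bddFun G →ₗ[ℝ] ℝ) : Prop :=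
  (∀ f : bddFun G, (∀ g, 0 ≤ f.1 g) → 0 ≤ m f) ∧
  (∀ f : bddFun G, (∀ g, f.1 g = 1) → m f = 1) ∧
  ∀ (h : G) (f f' : bddFun G), (∀ g, f'.1 g = f.1 (h * g)) → m f' = m f

/-- The discrete group `G` is amenable. -/
def IsAmenable (G : Type u) [Group G] : Prop :=
  ∃ m : bddFun G →ₗ[ℝ] ℝ, IsLeftInvariantMean G m

/-- `R` is a set of topological recurrence: for every minimal action of `G` by homeomorphisms on a
compact metric space `X` and every non-empty open `U`, some `g ∈ R`, `g ≠ 1`, has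
`U ∩ {x | g • x ∈ U} ≠ ∅`. -/
def TopologicalRecurrence (G : Type u) [Group G] (R : Set G) : Prop :=
  ∀ (X : Type v) [MetricSpace X] [CompactSpace X] [MulAction G X],
    (∀ g : G, Continuous fun x : X => g • x) →
    (∀ x : X, Dense (MulAction.orbit G x)) →
    ∀ U : Set X, IsOpen U → U.Nonempty → ∃ g ∈ R, g ≠ 1 ∧ (U ∩ {x | g • x ∈ U}).Nonempty

/-- `R` is a set of measurable recurrence: for every measure-preserving action of `G` on a
probability space and every measurable `A` of positive measure, some `g ∈ R`, `g ≠ 1`, has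
`μ (A ∩ {x | g • x ∈ A}) > 0`. -/
def MeasurableRecurrence (G : Type u) [Group G] (R : Set G) : Prop :=
  ∀ (X : Type v) [MeasurableSpace X] (μ : Measure X) [IsProbabilityMeasure μ] [MulAction G X],
    (∀ g : G, MeasurePreserving (fun x : X => g • x) μ μ) →
    ∀ A : Set X, MeasurableSet A → 0 < μ A → ∃ g ∈ R, g ≠ 1 ∧ 0 < μ (A ∩ {x | g • x ∈ A})

/-! ### Blocks -/

section Blocks

open Equiv Cardinal

variable {Ω : Type}

/-- The space of one copy of `Ω` and of copies of `Ω` indexed by `Ω × ℤ`. -/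
abbrev Q (Ω : Type) : Type := Ω ⊕ ((Ω × ℤ) × Ω)

open Classical in
/-- `g'` on the blocks in `S`. -/
noncomputable def blk (g' : Perm Ω) (S : Set (Ω × ℤ)) : Perm (Q Ω) :=
  Perm.sumCongr 1 (Equiv.prodShear (Equiv.refl _) (fun p => if p ∈ S then g' else 1))

open Classical in
/-- shift of the blocks in column `d` -/
noncomputable def shiftIdx (d : Ω) : Perm (Ω × ℤ) :=
  Equiv.prodShear (Equiv.refl _) (fun i => if i = d then Equiv.addRight (1 : ℤ) else 1)

/-- shift of the blocks in column `d` -/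
noncomputable def shift (d : Ω) : Perm (Q Ω) :=
  Perm.sumCongr 1 (Equiv.prodCongr (shiftIdx d) (Equiv.refl _))

open Classical in
/-- exchange of the first copy with the block `p` -/
noncomputable def swapFun (p : Ω × ℤ) : Q Ω → Q Ω
  | Sum.inl x => Sum.inr (p, x)
  | Sum.inr (q, x) => if q = p then Sum.inl x else Sum.inr (q, x)

lemma swapFun_invol (p : Ω × ℤ) : Function.Involutive (swapFun p) := by
  rintro (x | ⟨q, x⟩)
  · simp [swapFun]
  · by_cases h : q = p
    · subst h; simp [swapFun]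
    · simp [swapFun, h]

/-- exchange of the first copy with the block `p` -/
noncomputable def swapPerm (p : Ω × ℤ) : Perm (Q Ω) := (swapFun_invol p).toPerm

lemma swap_conj (g' : Perm Ω) (p : Ω × ℤ) :
    swapPerm p * Perm.sumCongr g' 1 * (swapPerm p)⁻¹ = blk g' {p} := by
  rw [mul_inv_eq_iff_eq_mul]
  ext1 z
  rcases z with x | ⟨q, x⟩
  · simp [swapPerm, swapFun, blk, Equiv.prodShear]
  · by_cases h : q = p
    · subst h; simp [swapPerm, swapFun, blk, Equiv.prodShear]
    · simp [swapPerm, swapFun, blk, Equiv.prodShear, h]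

lemma blk_inl (g' : Perm Ω) (S : Set (Ω × ℤ)) (x : Ω) : blk g' S (Sum.inl x) = Sum.inl x := by
  simp [blk]

lemma blk_inr_mem (g' : Perm Ω) {S : Set (Ω × ℤ)} {q : Ω × ℤ} (h : q ∈ S) (x : Ω) :
    blk g' S (Sum.inr (q, x)) = Sum.inr (q, g' x) := by
  simp [blk, Equiv.prodShear, h]

lemma blk_inr_notMem (g' : Perm Ω) {S : Set (Ω × ℤ)} {q : Ω × ℤ} (h : q ∉ S) (x : Ω) :
    blk g' S (Sum.inr (q, x)) = Sum.inr (q, x) := by
  simp [blk, Equiv.prodShear, h]

lemma shift_inl (d x : Ω) : shift d (Sum.inl x) = Sum.inl x := by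
  simp [shift]

lemma shift_inr (d : Ω) (q : Ω × ℤ) (x : Ω) :
    shift d (Sum.inr (q, x)) = Sum.inr (shiftIdx d q, x) := by
  simp [shift]

lemma shift_conj (g' : Perm Ω) (S T : Set (Ω × ℤ)) (d : Ω) (h : ∀ q, q ∈ S ↔ shiftIdx d q ∈ T) :
    shift d * blk g' S * (shift d)⁻¹ = blk g' T := by
  rw [mul_inv_eq_iff_eq_mul]
  ext1 z
  rcases z with x | ⟨q, x⟩
  · rw [Perm.mul_apply, Perm.mul_apply, blk_inl, shift_inl, blk_inl]
  · rw [Perm.mul_apply, Perm.mul_apply, shift_inr]
    by_cases hq : q ∈ S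
    · rw [blk_inr_mem g' hq, shift_inr, blk_inr_mem g' ((h q).1 hq)]
    · rw [blk_inr_notMem g' hq, shift_inr, blk_inr_notMem g' (fun h' => hq ((h q).2 h'))]

lemma blk_insert (g' : Perm Ω) (S : Set (Ω × ℤ)) (p : Ω × ℤ) (hp : p ∉ S) :
    blk g' (insert p S) = blk g' {p} * blk g' S := by
  ext1 z
  rcases z with x | ⟨q, x⟩
  · rw [Perm.mul_apply, blk_inl, blk_inl, blk_inl]
  · rw [Perm.mul_apply]
    by_cases hq : q = p
    · subst hq
      rw [blk_inr_notMem g' hp, blk_inr_mem g' (Set.mem_insert _ _),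
        blk_inr_mem g' (Set.mem_singleton q)]
    · by_cases hS : q ∈ S
      · rw [blk_inr_mem g' hS, blk_inr_mem g' (Set.mem_insert_of_mem _ hS),
          blk_inr_notMem g' (by simpa using hq)]
      · rw [blk_inr_notMem g' hS, blk_inr_notMem g' (by simp [hq, hS]),
          blk_inr_notMem g' (by simpa using hq)]

/-- The blocks `(i, n)` with `i ∈ J` and `n ≥ 0`. -/
def colUp (J : Set Ω) : Set (Ω × ℤ) := {p | p.1 ∈ J ∧ 0 ≤ p.2}

/-- The blocks `(i, n)` with `i ∈ J` and `n ≥ 0`, `n ≥ 1` if `i = d`. -/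
def colUp' (J : Set Ω) (d : Ω) : Set (Ω × ℤ) := {p | p.1 ∈ J ∧ 0 ≤ p.2 ∧ (p.1 = d → 1 ≤ p.2)}

lemma mem_colUp {J : Set Ω} {i : Ω} {n : ℤ} : (i, n) ∈ colUp J ↔ i ∈ J ∧ 0 ≤ n := Iff.rfl

lemma mem_colUp' {J : Set Ω} {d i : Ω} {n : ℤ} :
    (i, n) ∈ colUp' J d ↔ i ∈ J ∧ 0 ≤ n ∧ (i = d → 1 ≤ n) := Iff.rfl

lemma shiftIdx_self (d : Ω) (n : ℤ) : shiftIdx d (d, n) = (d, n + 1) := by
  simp [shiftIdx, Equiv.prodShear]

lemma shiftIdx_other {d i : Ω} (h : i ≠ d) (n : ℤ) : shiftIdx d (i, n) = (i, n) := by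
  simp [shiftIdx, Equiv.prodShear, h]

lemma shift_colUp_mem (g' : Perm Ω) {J : Set Ω} {d : Ω} (hd : d ∈ J) :
    blk g' (colUp J) = blk g' {(d, 0)} * (shift d * blk g' (colUp J) * (shift d)⁻¹) := by
  rw [shift_conj g' (colUp J) (colUp' J d) d, ← blk_insert]
  · congr 1
    ext ⟨i, n⟩
    rw [Set.mem_insert_iff, mem_colUp, mem_colUp', Prod.mk.injEq]
    constructor
    · rintro ⟨h1, h2⟩
      by_cases h3 : i = d
      · by_cases h4 : n = 0
        · exact Or.inl ⟨h3, h4⟩
        · exact Or.inr ⟨h1, h2, fun _ => by omega⟩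
      · exact Or.inr ⟨h1, h2, fun h => absurd h h3⟩
    · rintro (⟨rfl, rfl⟩ | ⟨h1, h2, -⟩)
      · exact ⟨hd, le_refl _⟩
      · exact ⟨h1, h2⟩
  · rw [mem_colUp']
    rintro ⟨-, -, h⟩
    exact absurd (h rfl) (by norm_num)
  · rintro ⟨i, n⟩
    by_cases h3 : i = d
    · rw [h3, shiftIdx_self, mem_colUp, mem_colUp']
      constructor
      · rintro ⟨h1, h2⟩
        exact ⟨h1, by omega, fun _ => by omega⟩
      · rintro ⟨h1, h2, h4⟩
        have := h4 rfl
        exact ⟨h1, by omega⟩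
    · rw [shiftIdx_other h3, mem_colUp, mem_colUp']
      constructor
      · rintro ⟨h1, h2⟩
        exact ⟨h1, h2, fun h => absurd h h3⟩
      · rintro ⟨h1, h2, -⟩
        exact ⟨h1, h2⟩

lemma shift_colUp_notMem (g' : Perm Ω) {J : Set Ω} {d : Ω} (hd : d ∉ J) :
    shift d * blk g' (colUp J) * (shift d)⁻¹ = blk g' (colUp J) := by
  refine shift_conj g' (colUp J) (colUp J) d ?_
  rintro ⟨i, n⟩
  by_cases h3 : i = d
  · subst h3
    rw [shiftIdx_self, mem_colUp, mem_colUp]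
    simp [hd]
  · rw [shiftIdx_other h3]

/-- If two different unions of columns act in the same way, the first copy acts trivially. -/
lemma map_eq_one_of_eq {H : Type*} [Group H] (ρ : Perm (Q Ω) →* H) (g' : Perm Ω) {J J' : Set Ω}
    {d : Ω} (hd : d ∈ J) (hd' : d ∉ J') (h : ρ (blk g' (colUp J)) = ρ (blk g' (colUp J'))) :
    ρ (Perm.sumCongr g' 1) = 1 := by
  have h1 : ρ (blk g' {(d, 0)}) = 1 := by
    have e1 := congrArg ρ (shift_colUp_mem g' hd)
    have e2 := congrArg ρ (shift_colUp_notMem g' hd')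
    simp only [map_mul] at e1 e2
    rw [h, e2] at e1
    exact (mul_eq_right.1 e1.symm)
  have h2 := congrArg ρ (swap_conj g' (d, 0))
  rw [h1, map_mul, map_mul, map_inv, mul_inv_eq_one] at h2
  exact mul_eq_left.1 h2

/-- Continuum many columns: two unions of columns act in the same way. -/
lemma exists_same (hΩ : #Ω = 𝔠) {X : Type v} [MetricSpace X] [CompactSpace X]
    (F : Set Ω → X → X) (hF : ∀ J, Continuous (F J)) : ∃ J J' : Set Ω, J ≠ J' ∧ F J = F J' := by
  have hne : Nonempty Ω := by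
    rw [← Cardinal.mk_ne_zero_iff, hΩ]
    exact Cardinal.continuum_ne_zero
  rcases isEmpty_or_nonempty X with hX | hX
  · exact ⟨∅, Set.univ, Set.empty_ne_univ, Subsingleton.elim _ _⟩
  let D := TopologicalSpace.denseSeq X
  have hD : DenseRange D := TopologicalSpace.denseRange_denseSeq X
  let Φ : Set Ω → (ℕ → ℕ → ℝ) := fun J n m => dist (F J (D n)) (D m)
  have hΦ : ¬ Function.Injective Φ := by
    intro h
    have h1 := Cardinal.mk_le_of_injective h
    have h2 : #(ℕ → ℕ → ℝ) = 𝔠 := by simp [Cardinal.mk_real]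
    rw [h2, Cardinal.mk_set, hΩ] at h1
    exact absurd h1 (not_le.2 (Cardinal.cantor 𝔠))
  simp only [Function.Injective, not_forall] at hΦ
  obtain ⟨J, J', h, hne'⟩ := hΦ
  refine ⟨J, J', hne', ?_⟩
  refine hD.equalizer (hF J) (hF J') (funext fun n => ?_)
  have h3 : (fun y => dist (F J (D n)) y) = fun y => dist (F J' (D n)) y :=
    hD.equalizer (continuous_const.dist continuous_id) (continuous_const.dist continuous_id)
      (funext fun m => congrFun (congrFun h n) m)
  have h4 := congrFun h3 (F J' (D n))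
  simp only [dist_self] at h4
  exact dist_eq_zero.1 h4

lemma block_trivial (hΩ : #Ω = 𝔠) {X : Type v} [MetricSpace X] [CompactSpace X]
    (ρ : Perm (Q Ω) →* Perm X) (hρ : ∀ q, Continuous (ρ q)) (g' : Perm Ω) :
    ρ (Perm.sumCongr g' 1) = 1 := by
  obtain ⟨J, J', hne, h⟩ := exists_same hΩ (fun J => ρ (blk g' (colUp J))) (fun J => hρ _)
  have h' : ρ (blk g' (colUp J)) = ρ (blk g' (colUp J')) := DFunLike.coe_injective h
  by_cases hs : J ⊆ J'
  · obtain ⟨d, hd, hd'⟩ := Set.not_subset.1 (fun h2 => hne (Set.Subset.antisymm hs h2))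
    exact map_eq_one_of_eq ρ g' hd hd' h'.symm
  · obtain ⟨d, hd, hd'⟩ := Set.not_subset.1 hs
    exact map_eq_one_of_eq ρ g' hd hd' h'

lemma exists_split (hΩ : #Ω = 𝔠) (g : Perm Ω) (i : Ω → Ω) (hi : Function.Injective i)
    (h : ∀ x, g (i x) = i x) : ∃ e : Ω ≃ Ω ⊕ Ω, ∀ x, g (e.symm (Sum.inr x)) = e.symm (Sum.inr x) := by
  obtain ⟨r⟩ : Nonempty (Ω ⊕ Ω ≃ Ω) := by
    rw [← Cardinal.eq]
    simp [hΩ]
  let j : Ω → Ω := fun x => i (r (Sum.inr x))
  have hj : Function.Injective j := fun x y hxy => Sum.inr_injective (r.injective (hi hxy))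
  have hc : #((Set.range j)ᶜ : Set Ω) = #Ω := by
    refine le_antisymm (Cardinal.mk_set_le _) ?_
    refine Cardinal.mk_le_of_injective (f := fun x => (⟨i (r (Sum.inl x)), ?_⟩ : ((Set.range j)ᶜ : Set Ω))) ?_
    · rintro ⟨y, hy⟩
      exact absurd (r.injective (hi hy)) (by simp)
    · intro x y hxy
      exact Sum.inl_injective (r.injective (hi (congrArg Subtype.val hxy)))
  obtain ⟨eC⟩ := Cardinal.eq.1 hc
  classical
  let e' : Ω ⊕ Ω ≃ Ω := (Equiv.sumComm Ω Ω).trans
    ((Equiv.sumCongr (Equiv.ofInjective j hj) eC.symm).trans (Equiv.Set.sumCompl (Set.range j)))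
  refine ⟨e'.symm, fun x => ?_⟩
  have : e'.symm.symm (Sum.inr x) = j x := by simp [e']
  rw [this]
  exact h _

lemma exists_sumCongr (g : Perm (Ω ⊕ Ω)) (h : ∀ x, g (Sum.inr x) = Sum.inr x) :
    ∃ g' : Perm Ω, g = Perm.sumCongr g' 1 := by
  have hinl : ∀ x, ∃ y, g (Sum.inl x) = Sum.inl y := by
    intro x
    rcases hx : g (Sum.inl x) with y | y
    · exact ⟨y, rfl⟩
    · rw [← h y] at hx
      exact absurd (g.injective hx) (by simp)
  have hinl' : ∀ x, ∃ y, g⁻¹ (Sum.inl x) = Sum.inl y := by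
    intro x
    rcases hx : g⁻¹ (Sum.inl x) with y | y
    · exact ⟨y, rfl⟩
    · rw [Perm.inv_eq_iff_eq, h y] at hx
      exact absurd hx (by simp)
  choose a ha using hinl
  choose b hb using hinl'
  refine ⟨⟨a, b, ?_, ?_⟩, ?_⟩
  · intro x
    have := hb (a x)
    rw [← ha x, Perm.inv_def, Equiv.symm_apply_apply] at this
    exact (Sum.inl_injective this).symm
  · intro x
    have := ha (b x)
    rw [← hb x, Perm.inv_def, Equiv.apply_symm_apply] at this
    exact (Sum.inl_injective this).symm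
  · ext1 z
    rcases z with x | x
    · rw [ha]; rfl
    · rw [h]; rfl

/-- A permutation fixing continuum many points acts trivially. -/
lemma trivial_of_fixes (hΩ : #Ω = 𝔠) {X : Type v} [MetricSpace X] [CompactSpace X]
    (ρ : Perm Ω →* Perm X) (hρ : ∀ q, Continuous (ρ q)) (g : Perm Ω) (i : Ω → Ω)
    (hi : Function.Injective i) (h : ∀ x, g (i x) = i x) : ρ g = 1 := by
  obtain ⟨e, he⟩ := exists_split hΩ g i hi h
  obtain ⟨g', hg'⟩ := exists_sumCongr (e.permCongrHom g) (fun x => by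
    simp [Equiv.permCongrHom, he])
  obtain ⟨f⟩ : Nonempty (Ω ≃ (Ω × ℤ) × Ω) := by
    rw [← Cardinal.eq]
    simp [hΩ]
  let E : Ω ≃ Q Ω := e.trans (Equiv.sumCongr (Equiv.refl Ω) f)
  have h1 := block_trivial hΩ (ρ.comp (E.permCongrHom.symm : Perm (Q Ω) →* Perm Ω))
    (fun q => hρ _) g'
  have h2 : E.permCongrHom g = Perm.sumCongr g' 1 := by
    have h3 : E.permCongrHom g = (Equiv.sumCongr (Equiv.refl Ω) f).permCongrHom
        (e.permCongrHom g) := rfl
    rw [h3, hg']
    ext1 z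
    rcases z with x | x
    · simp [Equiv.permCongrHom]
    · simp [Equiv.permCongrHom]
  rw [← h2] at h1
  change ρ (E.permCongrHom.symm (E.permCongrHom g)) = 1 at h1
  rwa [MulEquiv.symm_apply_apply] at h1

/-- Every permutation is a product of two permutations with continuum many fixed points. -/
lemma exists_factor (hΩ : #Ω = 𝔠) (h : Perm Ω) :
    ∃ (u : Perm Ω) (i j : Ω → Ω), Function.Injective i ∧ Function.Injective j ∧
      (∀ x, u (i x) = i x) ∧ ∀ x, (h * u⁻¹) (j x) = j x := by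
  classical
  obtain ⟨e⟩ : Nonempty (Ω ≃ Fin 4 × Ω) := by
    rw [← Cardinal.eq]
    simp [hΩ]
  have hinf : ℵ₀ ≤ #Ω := by
    rw [hΩ]; exact Cardinal.aleph0_le_continuum
  obtain ⟨⟨a, b⟩, hab⟩ := Cardinal.infinite_pigeonhole
    (fun x : Ω => ((e x).1, (e (h x)).1)) hinf
    (lt_of_lt_of_le (Cardinal.lt_aleph0_of_finite _)
      (Ordinal.aleph0_le_cof_iff.2 (Ordinal.one_lt_cof_iff.2 (Cardinal.isSuccLimit_ord hinf))))
  have hfin : ∀ a b : Fin 4, ∃ k l : Fin 4, k ≠ l ∧ k ≠ a ∧ k ≠ b ∧ l ≠ a ∧ l ≠ b := by decide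
  obtain ⟨k, l, hkl, hka, hkb, hla, hlb⟩ := hfin a b
  have hAmem : ∀ x : Ω, x ∈ (fun x : Ω => ((e x).1, (e (h x)).1)) ⁻¹' {(a, b)} ↔
      (e x).1 = a ∧ (e (h x)).1 = b := by
    intro x
    rw [Set.mem_preimage, Set.mem_singleton_iff, Prod.mk.injEq]
  obtain ⟨ψ⟩ := Cardinal.eq.1 hab
  let P : Ω → Prop := fun x => ((e x).1 = a ∧ (e (h x)).1 = b) ∨ (e x).1 = l
  let P' : Ω → Prop := fun y => ((e (h⁻¹ y)).1 = a ∧ (e y).1 = b) ∨ (e y).1 = l
  have hPk : #{x // ¬ P x} = #Ω := by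
    refine le_antisymm (Cardinal.mk_subtype_le _) ?_
    refine Cardinal.mk_le_of_injective (f := fun x => (⟨e.symm (k, x), ?_⟩ : {x // ¬ P x})) ?_
    · simp only [P, Equiv.apply_symm_apply]
      rintro (⟨h1, -⟩ | h1)
      · exact hka h1
      · exact hkl h1
    · intro x y hxy
      have := e.symm.injective (congrArg Subtype.val hxy)
      exact (Prod.mk.inj this).2
  have hPk' : #{x // ¬ P' x} = #Ω := by
    refine le_antisymm (Cardinal.mk_subtype_le _) ?_
    refine Cardinal.mk_le_of_injective (f := fun x => (⟨e.symm (k, x), ?_⟩ : {x // ¬ P' x})) ?_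
    · simp only [P', Equiv.apply_symm_apply]
      rintro (⟨-, h1⟩ | h1)
      · exact hkb h1
      · exact hkl h1
    · intro x y hxy
      have := e.symm.injective (congrArg Subtype.val hxy)
      exact (Prod.mk.inj this).2
  obtain ⟨E2⟩ : Nonempty ({x // ¬ P x} ≃ {x // ¬ P' x}) := by
    rw [← Cardinal.eq, hPk, hPk']
  let F1 : {x // P x} → {x // P' x} := fun x =>
    if hx : (e x.1).1 = a ∧ (e (h x.1)).1 = b then
      ⟨h x.1, Or.inl ⟨by rw [Perm.inv_def, Equiv.symm_apply_apply]; exact hx.1, hx.2⟩⟩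
    else ⟨x.1, Or.inr (x.2.resolve_left hx)⟩
  have hF1 : Function.Bijective F1 := by
    constructor
    · rintro ⟨x, hx⟩ ⟨y, hy⟩ hxy
      by_cases h1 : (e x).1 = a ∧ (e (h x)).1 = b
      · by_cases h2 : (e y).1 = a ∧ (e (h y)).1 = b
        · simp only [F1, h1, h2, and_self, dif_pos, Subtype.mk.injEq] at hxy
          exact Subtype.ext (h.injective hxy)
        · simp only [F1, h1, h2, and_self, dif_pos, dif_neg, not_false_iff, Subtype.mk.injEq] at hxy
          have h3 := hy.resolve_left h2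
          rw [← hxy, h1.2] at h3
          exact absurd h3.symm hlb
      · by_cases h2 : (e y).1 = a ∧ (e (h y)).1 = b
        · simp only [F1, h1, h2, and_self, dif_pos, dif_neg, not_false_iff, Subtype.mk.injEq] at hxy
          have h3 := hx.resolve_left h1
          rw [hxy, h2.2] at h3
          exact absurd h3.symm hlb
        · simp only [F1, h1, h2, dif_neg, not_false_iff, Subtype.mk.injEq] at hxy
          exact Subtype.ext hxy
    · rintro ⟨y, hy⟩
      by_cases h1 : (e (h⁻¹ y)).1 = a ∧ (e y).1 = b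
      · have h2 : (e (h⁻¹ y)).1 = a ∧ (e (h (h⁻¹ y))).1 = b := by
          rw [Perm.inv_def, Equiv.apply_symm_apply]; exact h1
        refine ⟨⟨h⁻¹ y, Or.inl h2⟩, ?_⟩
        simp only [F1, h2, and_self, dif_pos, Subtype.mk.injEq]
        rw [Perm.inv_def, Equiv.apply_symm_apply]
      · have h3 := hy.resolve_left h1
        have h2 : ¬ ((e y).1 = a ∧ (e (h y)).1 = b) := by
          rintro ⟨h4, -⟩
          exact hla (h3.symm.trans h4)
        refine ⟨⟨y, Or.inr h3⟩, ?_⟩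
        simp only [F1, h2, dif_neg, not_false_iff]
  let E1 : {x // P x} ≃ {x // P' x} := Equiv.ofBijective F1 hF1
  let u : Perm Ω := Equiv.subtypeCongr E1 E2
  have hu : ∀ x : Ω, P x → ((e x).1 = a ∧ (e (h x)).1 = b → u x = h x) ∧
      (¬ ((e x).1 = a ∧ (e (h x)).1 = b) → u x = x) := by
    intro x hx
    have h1 : u x = (E1 ⟨x, hx⟩ : Ω) := by
      simp [u, Equiv.subtypeCongr, hx]
    rw [h1]
    constructor
    · intro h2
      simp [E1, F1, h2]
    · intro h2
      simp only [E1, F1, Equiv.ofBijective_apply, dif_neg h2]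
  refine ⟨u, fun x => e.symm (l, x), fun x => h (ψ.symm x), ?_, ?_, ?_, ?_⟩
  · intro x y hxy
    exact (Prod.mk.inj (e.symm.injective hxy)).2
  · intro x y hxy
    exact ψ.symm.injective (Subtype.ext (h.injective hxy))
  · intro x
    have h1 : (e (e.symm (l, x))).1 = l := by rw [Equiv.apply_symm_apply]
    refine (hu _ (Or.inr h1)).2 ?_
    rintro ⟨h2, -⟩
    exact hla (h1.symm.trans h2)
  · intro x
    have h1 := (hAmem _).1 (ψ.symm x).2
    have h2 := (hu _ (Or.inl h1)).1 h1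
    change h (u⁻¹ (h (ψ.symm x))) = h (ψ.symm x)
    rw [← h2, Perm.inv_def, Equiv.symm_apply_apply, h2]

/-- Every action on a compact metric space is trivial. -/
theorem action_trivial (hΩ : #Ω = 𝔠) {X : Type v} [MetricSpace X] [CompactSpace X]
    (ρ : Perm Ω →* Perm X) (hρ : ∀ q, Continuous (ρ q)) (h : Perm Ω) : ρ h = 1 := by
  obtain ⟨u, i, j, hi, hj, h1, h2⟩ := exists_factor hΩ h
  have h3 := trivial_of_fixes hΩ ρ hρ u i hi h1
  have h4 := trivial_of_fixes hΩ ρ hρ (h * u⁻¹) j hj h2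
  rw [map_mul, map_inv, h3, inv_one, mul_one] at h4
  exact h4

end Blocks

/-! ### Non-amenability -/

section NonAmenability

open Equiv Cardinal

variable {Ω : Type}

/-- indicator function of `{g | g x₀ ∈ B}` -/
noncomputable def ind (x₀ : Ω) (B : Set Ω) : bddFun (Perm Ω) :=
  ⟨fun g => B.indicator (fun _ => (1 : ℝ)) (g x₀), 1, fun g => by
    by_cases h : g x₀ ∈ B
    · simp [h]
    · simp [h]⟩

lemma ind_mem {x₀ : Ω} {B : Set Ω} {g : Perm Ω} (h : g x₀ ∈ B) : (ind x₀ B).1 g = 1 := by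
  simp [ind, h]

lemma ind_notMem {x₀ : Ω} {B : Set Ω} {g : Perm Ω} (h : g x₀ ∉ B) : (ind x₀ B).1 g = 0 := by
  simp [ind, h]

lemma ind_union (x₀ : Ω) {B C : Set Ω} (h : Disjoint B C) :
    ind x₀ (B ∪ C) = ind x₀ B + ind x₀ C := by
  apply Subtype.ext
  funext g
  change (ind x₀ (B ∪ C)).1 g = (ind x₀ B).1 g + (ind x₀ C).1 g
  by_cases h1 : g x₀ ∈ B
  · have h2 : g x₀ ∉ C := Set.disjoint_left.1 h h1
    rw [ind_mem h1, ind_notMem h2, ind_mem (Set.mem_union_left C h1), add_zero]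
  · by_cases h2 : g x₀ ∈ C
    · rw [ind_notMem h1, ind_mem h2, ind_mem (Set.mem_union_right B h2), zero_add]
    · rw [ind_notMem h1, ind_notMem h2,
        ind_notMem (fun h3 => ((Set.mem_union _ _ _).1 h3).elim h1 h2), zero_add]

lemma mean_eq {m : bddFun (Perm Ω) →ₗ[ℝ] ℝ} (hm : IsLeftInvariantMean (Perm Ω) m) (x₀ : Ω)
    (S T : Set Ω) (h1 : #S = #T) (h2 : #(Sᶜ : Set Ω) = #(Tᶜ : Set Ω)) :
    m (ind x₀ S) = m (ind x₀ T) := by
  classical
  obtain ⟨a⟩ := Cardinal.eq.1 h1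
  obtain ⟨b⟩ := Cardinal.eq.1 h2
  let h : Perm Ω := Equiv.subtypeCongr (p := fun x => x ∈ S) (q := fun x => x ∈ T) a b
  refine hm.2.2 h (ind x₀ T) (ind x₀ S) (fun g => ?_)
  by_cases hx : g x₀ ∈ S
  · have h3 : h (g x₀) = (a ⟨g x₀, hx⟩ : Ω) := by simp [h, Equiv.subtypeCongr, hx]
    have h4 : (h * g) x₀ ∈ T := by
      rw [Perm.mul_apply, h3]
      exact (a ⟨g x₀, hx⟩).2
    rw [ind_mem hx, ind_mem h4]
  · have h3 : h (g x₀) = (b ⟨g x₀, hx⟩ : Ω) := by simp [h, Equiv.subtypeCongr, hx]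
    have h4 : (h * g) x₀ ∉ T := by
      rw [Perm.mul_apply, h3]
      exact (b ⟨g x₀, hx⟩).2
    rw [ind_notMem hx, ind_notMem h4]

theorem not_amenable (hΩ : #Ω = 𝔠) : ¬ IsAmenable (Perm Ω) := by
  rintro ⟨m, hm⟩
  have hne : Nonempty Ω := by
    rw [← Cardinal.mk_ne_zero_iff, hΩ]
    exact Cardinal.continuum_ne_zero
  obtain ⟨x₀⟩ := hne
  obtain ⟨e⟩ : Nonempty (Ω ≃ Fin 3 × Ω) := by
    rw [← Cardinal.eq]
    simp [hΩ]
  let A : Fin 3 → Set Ω := fun i => {x | (e x).1 = i}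
  have hA : ∀ (i : Fin 3) (S : Set Ω), A i ⊆ S → #S = 𝔠 := by
    intro i S hS
    refine le_antisymm ((Cardinal.mk_set_le _).trans hΩ.le) (hΩ.symm.le.trans ?_)
    refine Cardinal.mk_le_of_injective (f := fun x => (⟨e.symm (i, x), hS ?_⟩ : S)) ?_
    · change (e (e.symm (i, x))).1 = i
      rw [Equiv.apply_symm_apply]
    · intro x y hxy
      exact (Prod.mk.inj (e.symm.injective (congrArg Subtype.val hxy))).2
  have hsub : ∀ i j : Fin 3, i ≠ j → A i ⊆ (A j)ᶜ := by
    intro i j hij x hx hx'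
    exact hij (hx.symm.trans hx')
  have h01 : m (ind x₀ (A 0)) = m (ind x₀ (A 1)) :=
    mean_eq hm x₀ _ _ ((hA 0 _ subset_rfl).trans (hA 1 _ subset_rfl).symm)
      ((hA 1 _ (hsub 1 0 (by decide))).trans (hA 0 _ (hsub 0 1 (by decide))).symm)
  have h12 : m (ind x₀ (A 1)) = m (ind x₀ (A 2)) :=
    mean_eq hm x₀ _ _ ((hA 1 _ subset_rfl).trans (hA 2 _ subset_rfl).symm)
      ((hA 2 _ (hsub 2 1 (by decide))).trans (hA 0 _ (hsub 0 2 (by decide))).symm)
  have h012 : m (ind x₀ (A 0 ∪ A 1)) = m (ind x₀ (A 2)) := by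
    refine mean_eq hm x₀ _ _ ((hA 0 _ Set.subset_union_left).trans (hA 2 _ subset_rfl).symm)
      ((hA 2 _ ?_).trans (hA 0 _ (hsub 0 2 (by decide))).symm)
    intro x hx hx'
    rcases hx' with hx' | hx'
    · exact hsub 2 0 (by decide) hx hx'
    · exact hsub 2 1 (by decide) hx hx'
  have hd01 : Disjoint (A 0) (A 1) := Set.disjoint_left.2 fun x hx => hsub 0 1 (by decide) hx
  have hd012 : Disjoint (A 0 ∪ A 1) (A 2) := by
    rw [Set.disjoint_union_left]
    exact ⟨Set.disjoint_left.2 fun x hx => hsub 0 2 (by decide) hx,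
      Set.disjoint_left.2 fun x hx => hsub 1 2 (by decide) hx⟩
  have htot : m (ind x₀ ((A 0 ∪ A 1) ∪ A 2)) = 1 := by
    refine hm.2.1 _ fun g => ?_
    refine ind_mem ?_
    have : ∀ i : Fin 3, i = 0 ∨ i = 1 ∨ i = 2 := by decide
    rcases this (e (g x₀)).1 with h | h | h
    · exact Or.inl (Or.inl h)
    · exact Or.inl (Or.inr h)
    · exact Or.inr h
  rw [ind_union x₀ hd012, map_add] at htot
  rw [ind_union x₀ hd01, map_add] at h012 htot
  linarith

end NonAmenability

/-- There is a non-amenable discrete group in which every set of measurable recurrence is a set of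
topological recurrence. -/
theorem result : ∃ (G : Type) (_ : Group G), ¬ IsAmenable G ∧
    ∀ R : Set G, MeasurableRecurrence.{0, 0} G R → TopologicalRecurrence.{0, v} G R := by
  refine ⟨Equiv.Perm ℝ, inferInstance, not_amenable Cardinal.mk_real, ?_⟩
  intro R hR X _ _ _ hc _ U _ hU
  let _ : MulAction (Equiv.Perm ℝ) PUnit.{1} :=
    { smul := fun _ x => x, one_smul := fun _ => rfl, mul_smul := fun _ _ _ => rfl }
  obtain ⟨g, hg, hg1, -⟩ := hR PUnit.{1} (Measure.dirac PUnit.unit)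
    (fun g => by
      have : (fun x : PUnit.{1} => g • x) = id := by
        funext x
        rfl
      rw [this]
      exact MeasurePreserving.id _) Set.univ MeasurableSet.univ (by simp)
  refine ⟨g, hg, hg1, ?_⟩
  obtain ⟨x, hx⟩ := hU
  refine ⟨x, hx, ?_⟩
  have h := action_trivial Cardinal.mk_real (MulAction.toPermHom (Equiv.Perm ℝ) X)
    (fun q => hc q) g
  have h2 : g • x = x := congrArg (fun p : Equiv.Perm X => p x) h
  change g • x ∈ U
  rw [h2]
  exact hx

end Pool.Agent.Results.MP_290264_an.NonAmenable
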