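import Mathlib
import Pool.Agent.H771R2.Rec.SL2

set_option autoImplicit false

namespace Pool.Agent.Results.MP_290264_an.UncountableGroups

open Pool.Agent.H771R2.Rec Cardinal

/-- A field of characteristic zero with more than continuum many elements. -/
theorem exists_field : ∃ (K : Type) (_ : Field K) (_ : CharZero K), 𝔠 < #K := by
  refine ⟨FractionRing (MvPolynomial (Set (Set ℕ)) ℚ), inferInstance,
    IsFractionRing.charZero (MvPolynomial (Set (Set ℕ)) ℚ), ?_⟩
  have h1 : #(Set (Set ℕ)) ≤ #(FractionRing (MvPolynomial (Set (Set ℕ)) ℚ)) := by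
    refine Cardinal.mk_le_of_injective
      (f := fun i => algebraMap (MvPolynomial (Set (Set ℕ)) ℚ) _ (MvPolynomial.X i)) ?_
    intro i j h
    exact MvPolynomial.X_injective (IsFractionRing.injective (MvPolynomial (Set (Set ℕ)) ℚ) _ h)
  refine lt_of_lt_of_le ?_ h1
  have h2 : #(Set ℕ) = 𝔠 := by simp
  rw [← h2, Cardinal.mk_set (α := Set ℕ)]
  exact Cardinal.cantor _

/-- There is a non-amenable discrete group `G` in which every set of measurable recurrence is a set of
topological recurrence. (Here `G = SL₂(K)` for a field `K` of characteristic zero with more than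
continuum many elements.) -/
theorem result : ∃ (G : Type) (_ : Group G), ¬ Amenable G ∧ ∀ R : Set G, MeasRec R → TopRec R := by
  obtain ⟨K, _, _, hK⟩ := exists_field
  refine ⟨Matrix.SpecialLinearGroup (Fin 2) K, inferInstance, not_amenable_SL2 K, fun R hR => ?_⟩
  -- `R` contains some `g ≠ 1`
  obtain ⟨g, hg, hg1, -⟩ : ∃ g ∈ R, g ≠ 1 ∧ 0 < (MeasureTheory.Measure.dirac PUnit.unit :
      MeasureTheory.Measure PUnit) (Set.univ ∩ (fun x => g • x) ⁻¹' Set.univ) := by
    let _ : MulAction (Matrix.SpecialLinearGroup (Fin 2) K) PUnit :=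
      { smul := fun _ x => x, one_smul := fun _ => rfl, mul_smul := fun _ _ _ => rfl }
    have i1 : MeasurableConstSMul (Matrix.SpecialLinearGroup (Fin 2) K) PUnit :=
      ⟨fun _ => measurable_id⟩
    have i2 : MeasureTheory.SMulInvariantMeasure (Matrix.SpecialLinearGroup (Fin 2) K) PUnit
        (MeasureTheory.Measure.dirac PUnit.unit) := ⟨fun _ _ _ => rfl⟩
    exact hR PUnit (MeasureTheory.Measure.dirac PUnit.unit) Set.univ MeasurableSet.univ (by simp)
  intro X _ _ _ _ _ U _ hU
  obtain ⟨x, hx⟩ := hU
  refine ⟨g, hg, hg1, x, hx, ?_⟩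
  have := action_trivial hK X g x
  change g • x ∈ U
  rw [this]
  exact hx

end Pool.Agent.Results.MP_290264_an.UncountableGroups
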